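import Mathlib

/-!
Union bound over lazy skeletons: the counting core for inclusion of pattern languages over
large alphabets.
-/

namespace Helper84ID

open Finset

section Rank

/-- rank of `k` in the finite set `A`. -/
def rk (A : Finset ℕ) (k : ℕ) : ℕ := (A.filter (· < k)).card

lemma rk_mono (A : Finset ℕ) {k l : ℕ} (h : k ≤ l) : rk A k ≤ rk A l := by
  apply card_le_card
  intro x hx
  simp only [mem_filter] at hx ⊢
  exact ⟨hx.1, by omega⟩

lemma rk_lt (A : Finset ℕ) {k l : ℕ} (hk : k ∈ A) (h : k < l) : rk A k < rk A l := by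
  apply card_lt_card
  refine ⟨?_, ?_⟩
  · intro x hx
    simp only [mem_filter] at hx ⊢
    exact ⟨hx.1, by omega⟩
  · intro hsub
    have : k ∈ A.filter (· < k) := hsub (by simp [hk, h])
    simp at this

lemma rk_lt_card (A : Finset ℕ) {k : ℕ} (hk : k ∈ A) : rk A k < A.card := by
  apply card_lt_card
  refine ⟨filter_subset _ _, ?_⟩
  intro hsub
  have := hsub hk
  simp at this

/-- code of a monotone function on a finite set. -/
def code (A : Finset ℕ) (f : ℕ → ℕ) : Finset ℕ := A.image (fun k => f k + rk A k)

lemma code_strict (A : Finset ℕ) {f : ℕ → ℕ} (hf : Monotone f) {k l : ℕ} (hk : k ∈ A)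
    (h : k < l) : f k + rk A k < f l + rk A l := by
  have h1 := hf h.le
  have h2 := rk_lt A hk h
  omega

lemma code_card (A : Finset ℕ) {f : ℕ → ℕ} (hf : Monotone f) : (code A f).card = A.card := by
  apply card_image_of_injOn
  intro k hk l hl hkl
  simp only at hkl
  rcases lt_trichotomy k l with h | h | h
  · have := code_strict A hf hk h; omega
  · exact h
  · have := code_strict A hf hl h; omega

lemma code_subset (A : Finset ℕ) {f : ℕ → ℕ} {d : ℕ} (hd : ∀ k, f k ≤ d) :
    code A f ⊆ range (A.card + d) := by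
  intro x hx
  simp only [code, mem_image] at hx
  obtain ⟨k, hk, rfl⟩ := hx
  have h1 := rk_lt_card A hk
  have h2 := hd k
  simp only [mem_range]; omega

lemma code_mem (A : Finset ℕ) {f : ℕ → ℕ} {d : ℕ} (hf : Monotone f) (hd : ∀ k, f k ≤ d) :
    code A f ∈ powersetCard A.card (range (A.card + d)) := by
  rw [mem_powersetCard]
  exact ⟨code_subset A hd, code_card A hf⟩

/-- the code determines the function on the set (auxiliary one-sided form). -/
lemma code_inj_aux (A : Finset ℕ) {f g : ℕ → ℕ} (hf : Monotone f) (hg : Monotone g)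
    (h : code A f = code A g) {k : ℕ} (hk : k ∈ A)
    (hlt : ∀ l ∈ A, l < k → f l = g l) : ¬ f k < g k := by
  intro hfg
  have he : f k + rk A k ∈ code A g := by
    rw [← h]; exact mem_image_of_mem _ hk
  simp only [code, mem_image] at he
  obtain ⟨l, hl, hle⟩ := he
  rcases lt_or_ge l k with hlk | hlk
  · have h1 := hlt l hl hlk
    have h2 := code_strict A hf hl hlk
    omega
  · have h1 := hg hlk
    have h2 := rk_mono A hlk
    omega

lemma code_inj (A : Finset ℕ) {f g : ℕ → ℕ} (hf : Monotone f) (hg : Monotone g)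
    (h : code A f = code A g) : ∀ k ∈ A, f k = g k := by
  intro k
  induction k using Nat.strong_induction_on with
  | _ k ih =>
    intro hk
    have h1 := code_inj_aux A hf hg h hk (fun l hl hlk => ih l hlk hl)
    have h2 := code_inj_aux A hg hf h.symm hk (fun l hl hlk => (ih l hlk hl).symm)
    omega

end Rank

section Lazy

variable (C X : Finset ℕ)

/-- critical node. -/
def Crit (k a : ℕ) : Prop := k ∈ C ∧ k + a ∈ X

/-- the lazy skeleton of `lam`. -/
noncomputable def lz (lam : ℕ → ℕ) : ℕ → ℕ
  | 0 => sInf {a | lam 0 ≤ a ∨ ¬ Crit C X 0 a}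
  | k + 1 => sInf {a | lz lam k ≤ a ∧ (lam (k + 1) ≤ a ∨ ¬ Crit C X (k + 1) a)}

/-- unpaid columns of a path. -/
def UU (f : ℕ → ℕ) : Finset ℕ := C.filter (fun k => k + f k ∈ X)

structure Lazy (f : ℕ → ℕ) : Prop where
  mono : Monotone f
  zero : ∀ a, a < f 0 → Crit C X 0 a
  succ : ∀ k a, f k ≤ a → a < f (k + 1) → Crit C X (k + 1) a

variable {C X}

lemma lz_le {lam : ℕ → ℕ} (hlam : Monotone lam) (k : ℕ) : lz C X lam k ≤ lam k := by
  induction k with
  | zero =>
    simp only [lz]
    exact Nat.sInf_le (by simp)
  | succ k ih =>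
    simp only [lz]
    exact Nat.sInf_le ⟨ih.trans (hlam (Nat.le_succ k)), Or.inl le_rfl⟩

lemma lz_mem_succ {lam : ℕ → ℕ} (hlam : Monotone lam) (k : ℕ) :
    lz C X lam k ≤ lz C X lam (k + 1) ∧
      (lam (k + 1) ≤ lz C X lam (k + 1) ∨ ¬ Crit C X (k + 1) (lz C X lam (k + 1))) := by
  have hne : {a | lz C X lam k ≤ a ∧ (lam (k + 1) ≤ a ∨ ¬ Crit C X (k + 1) a)}.Nonempty :=
    ⟨lam (k + 1), (lz_le hlam k).trans (hlam (Nat.le_succ k)), Or.inl le_rfl⟩
  have := Nat.sInf_mem hne
  simpa [lz] using this

lemma lz_mem_zero {lam : ℕ → ℕ} :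
    (lam 0 ≤ lz C X lam 0 ∨ ¬ Crit C X 0 (lz C X lam 0)) := by
  have hne : {a | lam 0 ≤ a ∨ ¬ Crit C X 0 a}.Nonempty := ⟨lam 0, Or.inl le_rfl⟩
  have := Nat.sInf_mem hne
  simpa [lz] using this

lemma lz_mono {lam : ℕ → ℕ} (hlam : Monotone lam) : Monotone (lz C X lam) :=
  monotone_nat_of_le_succ (fun k => (lz_mem_succ hlam k).1)

lemma lz_crit {lam : ℕ → ℕ} (hlam : Monotone lam) {k : ℕ}
    (h : Crit C X k (lz C X lam k)) : lz C X lam k = lam k := by
  apply le_antisymm (lz_le hlam k)
  cases k with
  | zero => exact (lz_mem_zero (C := C) (X := X)).resolve_right (by simpa using h)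
  | succ k => exact (lz_mem_succ hlam k).2.resolve_right (by simpa using h)

lemma lz_lazy {lam : ℕ → ℕ} (hlam : Monotone lam) : Lazy C X (lz C X lam) where
  mono := lz_mono hlam
  zero := by
    intro a ha
    simp only [lz] at ha
    have := Nat.notMem_of_lt_sInf ha
    simp only [Set.mem_ofPred_eq, not_or, not_not] at this
    exact this.2
  succ := by
    intro k a h1 ha
    rw [lz] at ha
    have := Nat.notMem_of_lt_sInf ha
    simp only [Set.mem_ofPred_eq, not_and, not_or, not_not] at this
    exact (this h1).2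

lemma UU_filter_congr {f g : ℕ → ℕ} {k : ℕ} (h : ∀ l < k, f l = g l) {j : ℕ} (hj : j ≤ k) :
    rk (UU C X f) j = rk (UU C X g) j := by
  unfold rk UU
  congr 1
  ext x
  simp only [mem_filter]
  constructor
  · rintro ⟨⟨h1, h2⟩, h3⟩
    exact ⟨⟨h1, by rw [← h x (by omega)]; exact h2⟩, h3⟩
  · rintro ⟨⟨h1, h2⟩, h3⟩
    exact ⟨⟨h1, by rw [h x (by omega)]; exact h2⟩, h3⟩

lemma lazy_inj_aux {f g : ℕ → ℕ} (hf : Lazy C X f) (hg : Lazy C X g)
    (h : code (UU C X f) f = code (UU C X g) g) {k : ℕ}
    (hlt : ∀ l < k, f l = g l) : ¬ f k < g k := by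
  intro hfg
  have hcrit : Crit C X k (f k) := by
    cases k with
    | zero => exact hg.zero _ hfg
    | succ k =>
      apply hg.succ k _ _ hfg
      rw [← hlt k (Nat.lt_succ_self k)]
      exact hf.mono (Nat.le_succ k)
  have hkU : k ∈ UU C X f := by
    simp only [UU, mem_filter]; exact hcrit
  have he : f k + rk (UU C X f) k ∈ code (UU C X g) g := by
    rw [← h]; exact mem_image_of_mem _ hkU
  simp only [code, mem_image] at he
  obtain ⟨l, hl, hle⟩ := he
  rcases lt_or_ge l k with hlk | hlk
  · have h1 := hlt l hlk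
    have hl' : l ∈ UU C X f := by
      simp only [UU, mem_filter] at hl ⊢
      rw [h1]; exact hl
    have h2 := code_strict (UU C X f) hf.mono hl' hlk
    have h3 := UU_filter_congr (C := C) (X := X) hlt hlk.le
    omega
  · have h1 := hg.mono hlk
    have h2 := rk_mono (UU C X g) hlk
    have h3 := UU_filter_congr (C := C) (X := X) hlt (le_refl k)
    omega

lemma lazy_inj {f g : ℕ → ℕ} (hf : Lazy C X f) (hg : Lazy C X g)
    (h : code (UU C X f) f = code (UU C X g) g) : f = g := by
  funext k
  induction k using Nat.strong_induction_on with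
  | _ k ih =>
    have h1 := lazy_inj_aux hf hg h ih
    have h2 := lazy_inj_aux hg hf h.symm (fun l hl => (ih l hl).symm)
    omega

end Lazy

lemma choose_le_pred (n k : ℕ) (hn : 1 ≤ n) : n.choose k ≤ 2 ^ (n - 1) := by
  obtain ⟨n, rfl⟩ : ∃ n', n = n' + 1 := ⟨n - 1, by omega⟩
  simp only [Nat.add_sub_cancel]
  cases k with
  | zero => simpa using Nat.one_le_two_pow
  | succ k =>
    rw [Nat.choose_succ_succ']
    have hs := Nat.sum_range_choose n
    have hk : n.choose k + n.choose (k + 1) ≤ ∑ i ∈ range (n + 1), n.choose i := by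
      rcases le_or_gt (k + 1) n with h | h
      · have h1 : ({k, k + 1} : Finset ℕ) ⊆ range (n + 1) := by
          intro x hx
          simp only [mem_insert, mem_singleton] at hx
          simp only [mem_range]; omega
        have h2 := sum_le_sum_of_subset (f := fun i => n.choose i) h1
        rwa [sum_pair (by omega)] at h2
      · rw [Nat.choose_eq_zero_of_lt h, add_zero]
        rcases le_or_gt k n with h' | h'
        · exact single_le_sum (f := fun i => n.choose i) (fun _ _ => Nat.zero_le _)
            (by simp only [mem_range]; omega)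
        · rw [Nat.choose_eq_zero_of_lt h']; exact Nat.zero_le _
    omega

section Count

variable {α : Type*} [Fintype α]

open Classical in
/-- Main counting statement. -/
theorem core_count [Nonempty α] (d : ℕ) (X C : Finset ℕ)
    (W : (ℕ → α) → ℕ → α)
    (hW1 : ∀ g, ∀ t ∈ X, W g t = g t)
    (hW2 : ∀ g g' t, t ∉ X → (∀ t' ∈ X, t' < t → g t' = g' t') → W g t = W g' t)
    (K : ℕ → Option α) (y : ℕ → ℕ) (hy : ∀ k ∈ C, K k = none → y k < k)
    (e : ℕ) (he : ∀ f : ℕ → ℕ, Monotone f → (∀ k, f k ≤ d) → e ≤ (UU C X f).card)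
    (hd : 1 ≤ d)
    (H : ∀ g : ℕ → α, ∃ lam : ℕ → ℕ, Monotone lam ∧ (∀ k, lam k ≤ d) ∧
      ∀ k ∈ C, (∀ a, K k = some a → W g (k + lam k) = a) ∧
        (K k = none → W g (k + lam k) = W g (y k + lam (y k)))) :
    (Fintype.card α) ^ X.card ≤
      ∑ u ∈ Icc e X.card, 4 ^ (u + d - 1) * (Fintype.card α) ^ (X.card - u) := by
  set s := Fintype.card α with hs
  -- extend assignments on X
  let ext : (X → α) → ℕ → α := fun g t => if h : t ∈ X then g ⟨t, h⟩ else Classical.arbitrary α
  have hext : ∀ (g : X → α) (t : ℕ) (h : t ∈ X), ext g t = g ⟨t, h⟩ := by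
    intro g t h; simp [ext, h]
  choose lam hlm hld hlc using fun g : X → α => H (ext g)
  let sk : (X → α) → ℕ → ℕ := fun g => lz C X (lam g)
  have hskm : ∀ g, Monotone (sk g) := fun g => lz_mono (hlm g)
  have hsk : ∀ g, Lazy C X (sk g) := fun g => lz_lazy (hlm g)
  have hskd : ∀ g k, sk g k ≤ d := fun g k => (lz_le (hlm g) k).trans (hld g k)
  let U : (X → α) → Finset ℕ := fun g => UU C X (sk g)
  have hUe : ∀ g, e ≤ (U g).card := fun g => he _ (hskm g) (hskd g)
  have hUX : ∀ g, (U g).card ≤ X.card := by
    intro g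
    apply card_le_card_of_injOn (fun k => k + sk g k)
    · intro k hk
      have := (mem_filter.1 (show k ∈ UU C X (sk g) from hk)).2
      exact this
    · intro k hk l hl hkl
      simp only at hkl
      rcases lt_trichotomy k l with h | h | h
      · have := hskm g h.le; omega
      · exact h
      · have := hskm g h.le; omega
  -- fibre over the number of unpaid columns
  have h1 : s ^ X.card = ∑ u ∈ Icc e X.card,
      (univ.filter (fun g : X → α => (U g).card = u)).card := by
    rw [← card_eq_sum_card_fiberwise (s := (univ : Finset (X → α))) (t := Icc e X.card)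
      (f := fun g => (U g).card)]
    · rw [card_univ, Fintype.card_fun, hs, Fintype.card_coe]
    · intro g _
      simp only [coe_Icc, Set.mem_Icc]
      exact ⟨hUe g, hUX g⟩
  rw [h1]
  apply sum_le_sum
  intro u hu
  simp only [mem_Icc] at hu
  -- fibre over the code of the skeleton
  set A := univ.filter (fun g : X → α => (U g).card = u) with hA
  let cd : (X → α) → Finset ℕ := fun g => code (U g) (sk g)
  have hcd : ∀ g ∈ A, cd g ∈ powersetCard u (range (u + d)) := by
    intro g hg
    have := code_mem (U g) (hskm g) (hskd g)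
    rw [(mem_filter.1 hg).2] at this
    exact this
  have h2 : A.card = ∑ S ∈ powersetCard u (range (u + d)), (A.filter (fun g => cd g = S)).card :=
    card_eq_sum_card_fiberwise hcd
  have h3 : ∀ S ∈ powersetCard u (range (u + d)),
      (A.filter (fun g => cd g = S)).card ≤ 2 ^ (u + d - 1) * s ^ (X.card - u) := by
    intro S _
    set B := A.filter (fun g => cd g = S) with hB
    rcases B.eq_empty_or_nonempty with hBe | ⟨g0, hg0⟩
    · rw [hBe]; simp
    have hB0 : ∀ g ∈ B, sk g = sk g0 := by
      intro g hg
      apply lazy_inj (hsk g) (hsk g0)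
      have e1 := (mem_filter.1 hg).2
      have e2 := (mem_filter.1 hg0).2
      exact e1.trans e2.symm
    set U0 := U g0 with hU0
    have hU0c : U0.card = u := (mem_filter.1 (mem_filter.1 hg0).1).2
    set yy : ℕ → ℕ := fun k => if K k = none then y k else k with hyy
    set Y := U0.image yy with hY
    have hYc : Y.card ≤ u := by rw [← hU0c]; exact card_image_le
    have hUg : ∀ g ∈ B, U g = U0 := by
      intro g hg
      simp only [U, hU0, hB0 g hg]
    -- values on U0
    have hval : ∀ g ∈ B, ∀ k ∈ U0, lam g k = sk g0 k := by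
      intro g hg k hk
      rw [← hB0 g hg]
      symm
      apply lz_crit (hlm g)
      have : k ∈ UU C X (sk g) := by
        have := hUg g hg
        simp only [U] at this
        rw [this]; exact hk
      simpa [UU, Crit] using this
    -- fibre over the code of lam on Y
    have h4 : B.card ≤ ∑ M ∈ powersetCard Y.card (range (Y.card + d)),
        (B.filter (fun g => code Y (lam g) = M)).card := by
      apply le_of_eq
      apply card_eq_sum_card_fiberwise
      intro g _
      exact code_mem Y (hlm g) (hld g)
    have h5 : ∀ M ∈ powersetCard Y.card (range (Y.card + d)),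
        (B.filter (fun g => code Y (lam g) = M)).card ≤ s ^ (X.card - u) := by
      intro M _
      set D := B.filter (fun g => code Y (lam g) = M) with hD
      set T := U0.image (fun k => k + sk g0 k) with hT
      have hTX : T ⊆ X := by
        intro t ht
        simp only [hT, mem_image] at ht
        obtain ⟨k, hk, rfl⟩ := ht
        exact (mem_filter.1 (show k ∈ UU C X (sk g0) from hk)).2
      have hTc : T.card = u := by
        rw [← hU0c]
        apply card_image_of_injOn
        intro k _ l _ hkl
        simp only at hkl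
        rcases lt_trichotomy k l with h | h | h
        · have := hskm g0 h.le; omega
        · exact h
        · have := hskm g0 h.le; omega
      have hcard : Fintype.card ((X \ T : Finset ℕ) → α) = s ^ (X.card - u) := by
        rw [Fintype.card_fun, Fintype.card_coe, card_sdiff_of_subset hTX, hTc]
      rw [← hcard, ← card_univ]
      apply card_le_card_of_injOn (fun g => fun t : (X \ T : Finset ℕ) =>
        g ⟨t.1, (mem_sdiff.1 t.2).1⟩)
      · intro g _; simp
      · intro g hg g' hg' hgg
        have hgD : g ∈ D := hg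
        have hgD' : g' ∈ D := hg'
        have hgB := (mem_filter.1 hgD).1
        have hgB' := (mem_filter.1 hgD').1
        have hlamY : ∀ k ∈ Y, lam g k = lam g' k := by
          apply code_inj Y (hlm g) (hlm g')
          rw [(mem_filter.1 hgD).2, (mem_filter.1 hgD').2]
        have key : ∀ t, ∀ ht : t ∈ X, g ⟨t, ht⟩ = g' ⟨t, ht⟩ := by
          intro t
          induction t using Nat.strong_induction_on with
          | _ t ih =>
            intro ht
            have hWlt : ∀ t' < t, W (ext g) t' = W (ext g') t' := by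
              intro t' ht'
              by_cases htX : t' ∈ X
              · rw [hW1 _ _ htX, hW1 _ _ htX, hext g t' htX, hext g' t' htX]
                exact ih t' ht' htX
              · apply hW2 _ _ _ htX
                intro t'' h1 h2
                rw [hext g t'' h1, hext g' t'' h1]
                exact ih t'' (by omega) h1
            by_cases htT : t ∈ T
            · simp only [hT, mem_image] at htT
              obtain ⟨k, hk, hkt⟩ := htT
              have hkC : k ∈ C := (mem_filter.1 (show k ∈ UU C X (sk g0) from hk)).1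
              have ea : lam g k = sk g0 k := hval g hgB k hk
              have ea' : lam g' k = sk g0 k := hval g' hgB' k hk
              have eW : W (ext g) t = W (ext g') t := by
                rcases hK : K k with _ | a
                · have e1 := (hlc g k hkC).2 hK
                  have e2 := (hlc g' k hkC).2 hK
                  rw [ea, hkt] at e1
                  rw [ea', hkt] at e2
                  have hyY : y k ∈ Y := by
                    rw [hY, mem_image]
                    exact ⟨k, hk, by simp [hyy, hK]⟩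
                  have hyl := hlamY _ hyY
                  rw [e1, e2, ← hyl]
                  apply hWlt
                  have h6 := hy k hkC hK
                  have h7 := hlm g h6.le
                  omega
                · have e1 := (hlc g k hkC).1 a hK
                  have e2 := (hlc g' k hkC).1 a hK
                  rw [ea, hkt] at e1
                  rw [ea', hkt] at e2
                  rw [e1, e2]
              rw [hW1 _ _ ht, hW1 _ _ ht, hext g t ht, hext g' t ht] at eW
              exact eW
            · have := congrFun hgg ⟨t, mem_sdiff.2 ⟨ht, htT⟩⟩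
              simpa using this
        funext t
        exact key t.1 t.2
    calc B.card ≤ ∑ M ∈ powersetCard Y.card (range (Y.card + d)),
        (B.filter (fun g => code Y (lam g) = M)).card := h4
      _ ≤ ∑ M ∈ powersetCard Y.card (range (Y.card + d)), s ^ (X.card - u) := sum_le_sum h5
      _ = (Y.card + d).choose Y.card * s ^ (X.card - u) := by
        rw [sum_const, card_powersetCard, card_range, smul_eq_mul]
      _ ≤ 2 ^ (u + d - 1) * s ^ (X.card - u) := by
        apply Nat.mul_le_mul_right
        calc (Y.card + d).choose Y.card ≤ 2 ^ (Y.card + d - 1) := choose_le_pred _ _ (by omega)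
          _ ≤ 2 ^ (u + d - 1) := Nat.pow_le_pow_right (by norm_num) (by omega)
  rw [h2]
  calc ∑ S ∈ powersetCard u (range (u + d)), (A.filter (fun g => cd g = S)).card
      ≤ ∑ S ∈ powersetCard u (range (u + d)), 2 ^ (u + d - 1) * s ^ (X.card - u) :=
        sum_le_sum h3
    _ = (u + d).choose u * (2 ^ (u + d - 1) * s ^ (X.card - u)) := by
      rw [sum_const, card_powersetCard, card_range, smul_eq_mul]
    _ ≤ 2 ^ (u + d - 1) * (2 ^ (u + d - 1) * s ^ (X.card - u)) := by
      apply Nat.mul_le_mul_right
      exact choose_le_pred _ _ (by omega)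
    _ = 4 ^ (u + d - 1) * s ^ (X.card - u) := by
      rw [← mul_assoc, ← mul_pow]; norm_num

lemma geom_quarter (n : ℕ) : ∑ i ∈ range n, ((1 : ℚ) / 4) ^ (i + 1) < 1 := by
  have h : ∑ i ∈ range n, ((1 : ℚ) / 4) ^ (i + 1) = (1 - (1 / 4) ^ n) / 3 := by
    induction n with
    | zero => simp
    | succ n ih => rw [sum_range_succ, ih]; ring
  rw [h]
  have : (0 : ℚ) < (1 / 4) ^ n := by positivity
  linarith

lemma numeric (s N d e : ℕ) (hs : 16 ≤ s) (hd : 1 ≤ d) (hde : d ≤ e)
    (h : s ^ N ≤ ∑ u ∈ Icc e N, 4 ^ (u + d - 1) * s ^ (N - u)) : False := by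
  have hpos : (0 : ℚ) < (s : ℚ) ^ N := by
    have : 0 < s := by omega
    positivity
  have hterm : ∀ u ∈ Icc e N, ((4 ^ (u + d - 1) * s ^ (N - u) : ℕ) : ℚ) ≤
      (s : ℚ) ^ N * (1 / 4) ^ (u - d + 1) := by
    intro u hu
    simp only [mem_Icc] at hu
    have h1 : 4 ^ (u + d - 1) * s ^ (N - u) * 4 ^ (u - d + 1) ≤ s ^ N := by
      calc 4 ^ (u + d - 1) * s ^ (N - u) * 4 ^ (u - d + 1)
          = (4 ^ (u + d - 1) * 4 ^ (u - d + 1)) * s ^ (N - u) := by ring
        _ = 16 ^ u * s ^ (N - u) := by
          rw [← pow_add]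
          have : u + d - 1 + (u - d + 1) = 2 * u := by omega
          rw [this, pow_mul]; norm_num
        _ ≤ s ^ u * s ^ (N - u) := by
          apply Nat.mul_le_mul_right
          exact Nat.pow_le_pow_left hs u
        _ = s ^ N := by rw [← pow_add]; congr 1; omega
    have h2 : ((4 ^ (u + d - 1) * s ^ (N - u) : ℕ) : ℚ) * 4 ^ (u - d + 1) ≤ (s : ℚ) ^ N := by
      exact_mod_cast h1
    have h3 : (0 : ℚ) < 4 ^ (u - d + 1) := by positivity
    rw [one_div, inv_pow, ← div_eq_mul_inv, le_div_iff₀ h3]
    exact h2
  have hsum : (s : ℚ) ^ N ≤ ∑ u ∈ Icc e N, (s : ℚ) ^ N * (1 / 4) ^ (u - d + 1) := by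
    calc (s : ℚ) ^ N = ((s ^ N : ℕ) : ℚ) := by push_cast; rfl
      _ ≤ ((∑ u ∈ Icc e N, 4 ^ (u + d - 1) * s ^ (N - u) : ℕ) : ℚ) := by exact_mod_cast h
      _ = ∑ u ∈ Icc e N, ((4 ^ (u + d - 1) * s ^ (N - u) : ℕ) : ℚ) := by push_cast; rfl
      _ ≤ _ := sum_le_sum hterm
  rw [← mul_sum] at hsum
  have hs2 : ∑ u ∈ Icc e N, ((1 : ℚ) / 4) ^ (u - d + 1) < 1 := by
    refine lt_of_le_of_lt ?_ (geom_quarter (N + 1))
    rw [← sum_image (s := Icc e N) (g := fun u => u - d) (f := fun i => ((1 : ℚ) / 4) ^ (i + 1))]
    · apply sum_le_sum_of_subset_of_nonneg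
      · intro i hi
        simp only [mem_image, mem_Icc] at hi
        obtain ⟨u, hu, rfl⟩ := hi
        simp only [mem_range]; omega
      · intro i _ _; positivity
    · intro a ha b hb hab
      simp only [coe_Icc, Set.mem_Icc] at ha hb
      simp only at hab
      omega
  nlinarith

end Count

end Helper84ID
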