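import Mathlib
import Pool.Agent.Helper84_ID.Core

/-!
The letter lemma for patterns over alphabets with at least 16 letters.
-/

namespace Helper84ID

open Finset Classical

variable {Sig : Type}

/-- image of a symbol. -/
def img (s : ℕ → List Sig) : Sig ⊕ ℕ → List Sig := Sum.elim (fun a => [a]) s

/-- non-erasing pattern language. -/
def Lang (q : List (Sig ⊕ ℕ)) : Set (List Sig) :=
  {w | ∃ s : ℕ → List Sig, (∀ i, s i ≠ []) ∧ w = q.flatMap (img s)}

/-- number of distinct variables. -/
noncomputable def nv (p : List (Sig ⊕ ℕ)) : ℕ := (p.filterMap Sum.getRight?).toFinset.card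

/-- index of the first occurrence of `x` in `p`. -/
noncomputable def fidx (p : List (Sig ⊕ ℕ)) (x : Sig ⊕ ℕ) : ℕ :=
  p.findIdx (fun y => decide (y = x))

lemma fidx_lt {p : List (Sig ⊕ ℕ)} {x : Sig ⊕ ℕ} (h : x ∈ p) : fidx p x < p.length :=
  List.findIdx_lt_length_of_exists ⟨x, h, by simp⟩

lemma getElem_fidx {p : List (Sig ⊕ ℕ)} {x : Sig ⊕ ℕ} (h : fidx p x < p.length) :
    p[fidx p x] = x := by
  have := List.findIdx_getElem (p := fun y => decide (y = x)) (xs := p) (w := h)
  exact of_decide_eq_true this

lemma fidx_le {p : List (Sig ⊕ ℕ)} {t : ℕ} {x : Sig ⊕ ℕ} (h : p[t]? = some x) :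
    fidx p x ≤ t := by
  by_contra hlt
  push Not at hlt
  have := List.not_of_lt_findIdx (p := fun y => decide (y = x)) (xs := p) (i := t) hlt
  obtain ⟨h1, h2⟩ := List.getElem?_eq_some_iff.1 h
  simp [h2] at this

/-- first-occurrence positions of variables. -/
noncomputable def FX (p : List (Sig ⊕ ℕ)) : Finset ℕ :=
  (range p.length).filter (fun t => ∃ i, p[t]? = some (Sum.inr i) ∧ fidx p (Sum.inr i) = t)

lemma img_ne_nil {s : ℕ → List Sig} (hs : ∀ i, s i ≠ []) (x : Sig ⊕ ℕ) : img s x ≠ [] := by
  cases x with
  | inl a => simp [img]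
  | inr i => exact hs i

lemma mem_vars {p : List (Sig ⊕ ℕ)} {i : ℕ} :
    i ∈ (p.filterMap Sum.getRight?).toFinset ↔ Sum.inr i ∈ p := by
  simp only [List.mem_toFinset, List.mem_filterMap]
  constructor
  · rintro ⟨x, hx, h⟩
    cases x with
    | inl a => simp at h
    | inr j => simp at h; subst h; exact hx
  · intro h
    exact ⟨_, h, by simp⟩

lemma card_FX (p : List (Sig ⊕ ℕ)) : (FX p).card = nv p := by
  symm
  unfold nv
  apply card_bij (fun i _ => fidx p (Sum.inr i))
  · intro i hi
    rw [mem_vars] at hi
    have hlt : fidx p (Sum.inr i) < p.length := fidx_lt hi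
    simp only [FX, mem_filter, mem_range]
    refine ⟨hlt, i, ?_, rfl⟩
    rw [List.getElem?_eq_getElem hlt, getElem_fidx hlt]
  · intro i hi j hj hij
    rw [mem_vars] at hi hj
    have h1 : fidx p (Sum.inr i) < p.length := fidx_lt hi
    have h2 : fidx p (Sum.inr j) < p.length := fidx_lt hj
    have e1 := getElem_fidx h1
    have e2 := getElem_fidx h2
    simp only [hij] at e1
    rw [e1] at e2
    exact Sum.inr.inj e2
  · intro t ht
    simp only [FX, mem_filter, mem_range] at ht
    obtain ⟨_, i, hi, rfl⟩ := ht
    refine ⟨i, ?_, rfl⟩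
    rw [mem_vars]
    exact List.mem_of_getElem? hi

lemma FX_subset (p : List (Sig ⊕ ℕ)) : FX p ⊆ range p.length := filter_subset _ _

/-- start of the image of column `k`. -/
noncomputable def pos (q : List (Sig ⊕ ℕ)) (s : ℕ → List Sig) (k : ℕ) : ℕ :=
  ((q.take k).flatMap (img s)).length

lemma pos_succ (q : List (Sig ⊕ ℕ)) {s : ℕ → List Sig} (hs : ∀ i, s i ≠ []) {k : ℕ}
    (hk : k < q.length) : pos q s k + 1 ≤ pos q s (k + 1) := by
  unfold pos
  rw [List.take_add_one, List.flatMap_append, List.length_append, List.getElem?_eq_getElem hk]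
  simp only [Option.toList_some, List.flatMap_cons, List.flatMap_nil, List.append_nil]
  have := List.length_pos_iff.2 (img_ne_nil hs q[k])
  omega

lemma pos_zero (q : List (Sig ⊕ ℕ)) (s : ℕ → List Sig) : pos q s 0 = 0 := by simp [pos]

lemma pos_length (q : List (Sig ⊕ ℕ)) (s : ℕ → List Sig) :
    pos q s q.length = (q.flatMap (img s)).length := by simp [pos]

lemma pos_get (q : List (Sig ⊕ ℕ)) {s : ℕ → List Sig} (hs : ∀ i, s i ≠ []) {k : ℕ}
    (hk : k < q.length) : (q.flatMap (img s))[pos q s k]? = (img s q[k]).head? := by
  have h1 : q = q.take k ++ q[k] :: q.drop (k + 1) := by simp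
  have h2 : q.flatMap (img s) = (q.take k).flatMap (img s) ++
      (img s q[k] ++ (q.drop (k + 1)).flatMap (img s)) := by
    conv_lhs => rw [h1]
    rw [List.flatMap_append, List.flatMap_cons]
  rw [h2, List.getElem?_append_right (by simp [pos])]
  simp only [pos, Nat.sub_self]
  have := img_ne_nil hs q[k]
  cases h : img s q[k] with
  | nil => exact absurd h this
  | cons a l => simp

lemma pos_add_le (q : List (Sig ⊕ ℕ)) {s : ℕ → List Sig} (hs : ∀ i, s i ≠ []) {k l : ℕ}
    (hkl : k ≤ l) (hl : l ≤ q.length) : pos q s k + (l - k) ≤ pos q s l := by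
  induction l, hkl using Nat.le_induction with
  | base => simp
  | succ l hkl ih =>
    have h1 := ih (by omega)
    have h2 := pos_succ q hs (k := l) (by omega)
    omega

lemma letter_flatMap (p : List (Sig ⊕ ℕ)) (g : ℕ → Sig) :
    p.flatMap (img (fun i => [g i])) = p.map (Sum.elim id g) := by
  induction p with
  | nil => simp
  | cons x p ih =>
    rw [List.flatMap_cons, ih, List.map_cons]
    cases x with
    | inl a => simp [img]
    | inr i => simp [img]

theorem letter_lemma [Fintype Sig] (h16 : 16 ≤ Fintype.card Sig) (p q : List (Sig ⊕ ℕ)) (d : ℕ)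
    (hd : 1 ≤ d) (hlen : p.length = q.length + d)
    (hincl : ∀ g : ℕ → Sig, p.map (Sum.elim id g) ∈ Lang q) : nv p < nv q + 2 * d := by
  by_contra hcon
  push Not at hcon
  have : Nonempty Sig := Fintype.card_pos_iff.1 (by omega)
  set m := q.length with hm
  set X := FX p with hX
  set C := range m \ FX q with hC
  have hCc : C.card = m - nv q := by
    rw [hC, card_sdiff_of_subset (FX_subset q), card_range, card_FX]
  have hvq : nv q ≤ m := by
    rw [← card_FX]; simpa using card_le_card (FX_subset q)
  let W : (ℕ → Sig) → ℕ → Sig := fun g t =>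
    match p[t]? with
    | some (Sum.inl a) => a
    | some (Sum.inr i) => g (fidx p (Sum.inr i))
    | none => Classical.arbitrary Sig
  have hW1 : ∀ g, ∀ t ∈ X, W g t = g t := by
    intro g t ht
    simp only [hX, FX, mem_filter, mem_range] at ht
    obtain ⟨_, i, h1, h2⟩ := ht
    simp only [W, h1, h2]
  have hW2 : ∀ g g' t, t ∉ X → (∀ t' ∈ X, t' < t → g t' = g' t') → W g t = W g' t := by
    intro g g' t ht h
    simp only [W]
    rcases hpt : p[t]? with _ | (a | i)
    · rfl
    · rfl
    · simp only
      have h1 := fidx_le hpt
      have h2 : fidx p (Sum.inr i) ≠ t := by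
        intro h2
        apply ht
        simp only [hX, FX, mem_filter, mem_range]
        exact ⟨(List.getElem?_eq_some_iff.1 hpt).1, i, hpt, h2⟩
      have h3 : fidx p (Sum.inr i) ∈ X := by
        have hlt : fidx p (Sum.inr i) < p.length :=
          fidx_lt (List.mem_of_getElem? hpt)
        simp only [hX, FX, mem_filter, mem_range]
        exact ⟨hlt, i, by rw [List.getElem?_eq_getElem hlt, getElem_fidx hlt], rfl⟩
      exact h _ h3 (by omega)
  let K : ℕ → Option Sig := fun k =>
    match q[k]? with
    | some (Sum.inl a) => some a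
    | _ => none
  let y : ℕ → ℕ := fun k =>
    match q[k]? with
    | some (Sum.inr i) => fidx q (Sum.inr i)
    | _ => 0
  have hsym : ∀ k ∈ C, (∃ a, q[k]? = some (Sum.inl a)) ∨
      (∃ i, q[k]? = some (Sum.inr i) ∧ fidx q (Sum.inr i) < k) := by
    intro k hk
    simp only [hC, mem_sdiff, mem_range] at hk
    rcases hq : q[k]? with _ | (a | i)
    · rw [List.getElem?_eq_none_iff] at hq; omega
    · exact Or.inl ⟨a, rfl⟩
    · right
      refine ⟨i, rfl, ?_⟩
      have h1 := fidx_le hq
      have h2 : fidx q (Sum.inr i) ≠ k := by
        intro h2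
        apply hk.2
        simp only [FX, mem_filter, mem_range]
        exact ⟨hk.1, i, hq, h2⟩
      omega
  have hy : ∀ k ∈ C, K k = none → y k < k := by
    intro k hk hK
    rcases hsym k hk with ⟨a, ha⟩ | ⟨i, hi, hlt⟩
    · simp [K, ha] at hK
    · simp only [y, hi]; exact hlt
  have hnX : X.card ≤ m + d := by
    have := card_le_card (FX_subset p)
    rw [card_range, hlen] at this
    exact this
  have hXc : X.card = nv p := card_FX p
  have he : ∀ f : ℕ → ℕ, Monotone f → (∀ k, f k ≤ d) →
      C.card + X.card - (m + d) ≤ (UU C X f).card := by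
    intro f hf hfd
    have h1 : (C.filter (fun k => ¬ (k + f k ∈ X))).card ≤ (m + d) - X.card := by
      have h2 : (range (m + d) \ X).card = (m + d) - X.card := by
        rw [card_sdiff_of_subset, card_range]
        rw [hX, ← hlen]; exact FX_subset p
      rw [← h2]
      apply card_le_card_of_injOn (fun k => k + f k)
      · intro k hk
        simp only [coe_filter, Set.mem_ofPred_eq] at hk
        simp only [coe_sdiff, Set.mem_sdiff, mem_coe, mem_range]
        refine ⟨?_, hk.2⟩
        have : k < m := by
          have := hk.1
          simp only [hC, mem_sdiff, mem_range] at this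
          exact this.1
        have := hfd k
        omega
      · intro k _ l _ hkl
        simp only at hkl
        rcases lt_trichotomy k l with h | h | h
        · have := hf h.le; omega
        · exact h
        · have := hf h.le; omega
    have h3 := card_filter_add_card_filter_not (s := C) (p := fun k => k + f k ∈ X)
    unfold UU
    omega
  have H : ∀ g : ℕ → Sig, ∃ lam : ℕ → ℕ, Monotone lam ∧ (∀ k, lam k ≤ d) ∧
      ∀ k ∈ C, (∀ a, K k = some a → W g (k + lam k) = a) ∧
        (K k = none → W g (k + lam k) = W g (y k + lam (y k))) := by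
    intro g
    set g' : ℕ → Sig := fun i => g (fidx p (Sum.inr i)) with hg'
    obtain ⟨s, hs, hw⟩ := hincl g'
    have hWw : ∀ t, t < p.length → (p.map (Sum.elim id g'))[t]? = some (W g t) := by
      intro t ht
      rw [List.getElem?_map, List.getElem?_eq_getElem ht]
      simp only [Option.map_some, W, List.getElem?_eq_getElem ht]
      cases h : p[t] with
      | inl a => simp
      | inr i => simp [hg']
    have hlw : (q.flatMap (img s)).length = p.length := by rw [← hw]; simp
    have hposm : pos q s m = p.length := by rw [hm, pos_length, hlw]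
    have hge : ∀ k ≤ m, k ≤ pos q s k := by
      intro k hk
      have := pos_add_le q hs (Nat.zero_le k) hk
      rw [pos_zero] at this; omega
    have hle : ∀ k ≤ m, pos q s k ≤ k + d := by
      intro k hk
      have := pos_add_le q hs hk le_rfl
      rw [hposm] at this; omega
    refine ⟨fun k => pos q s (min k m) - min k m, ?_, ?_, ?_⟩
    · intro k l hkl
      simp only
      have h1 := pos_add_le q hs (k := min k m) (l := min l m) (by omega) (by omega)
      have h2 := hge (min k m) (by omega)
      have h3 := hge (min l m) (by omega)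
      omega
    · intro k
      have := hle (min k m) (by omega)
      simp only; omega
    · intro k hk
      have hkm : k < m := by
        simp only [hC, mem_sdiff, mem_range] at hk
        exact hk.1
      have hpk : ∀ j < m, W g (j + (pos q s (min j m) - min j m)) = W g (pos q s j) := by
        intro j hj
        have h1 : min j m = j := by omega
        have h2 := hge j hj.le
        rw [h1]; congr 1; omega
      have hval : ∀ j, (hj : j < m) → some (W g (pos q s j)) = (img s q[j]).head? := by
        intro j hj
        have h1 : pos q s j < p.length := by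
          have := hle j hj.le
          have h2 := pos_add_le q hs (k := j) (l := m) hj.le le_rfl
          rw [hposm] at h2; omega
        rw [← hWw _ h1, hw, pos_get q hs hj]
      simp only
      rw [hpk k hkm]
      rcases hsym k hk with ⟨a, ha⟩ | ⟨i, hi, hlt⟩
      · refine ⟨?_, ?_⟩
        · intro b hb
          simp only [K, ha, Option.some.injEq] at hb
          subst hb
          have h1 := hval k hkm
          have h2 : q[k] = Sum.inl a := by
            have := List.getElem?_eq_some_iff.1 ha
            exact this.2
          rw [h2] at h1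
          simpa [img] using h1
        · intro hb; simp [K, ha] at hb
      · refine ⟨?_, ?_⟩
        · intro b hb; simp [K, hi] at hb
        · intro _
          have hyk : y k = fidx q (Sum.inr i) := by simp only [y, hi]
          rw [hyk]
          have hlt' : fidx q (Sum.inr i) < m := by omega
          rw [hpk _ hlt']
          have h1 := hval k hkm
          have h2 := hval _ hlt'
          have h3 : q[k] = Sum.inr i := (List.getElem?_eq_some_iff.1 hi).2
          have h4 : q[fidx q (Sum.inr i : Sig ⊕ ℕ)] = Sum.inr i := getElem_fidx hlt'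
          rw [h3] at h1
          rw [h4] at h2
          have := h1.trans h2.symm
          exact Option.some.inj this
  have hfin := core_count d X C W hW1 hW2 K y hy (C.card + X.card - (m + d)) he hd H
  exact numeric _ _ d _ h16 hd (by omega) hfin

end Helper84ID
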