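import Mathlib
import Pool.Agent.Helper84_ID.Letter

/-!
Length and variable-number comparison for included pattern languages, existence of long chains.
-/

namespace Helper84ID

open Finset Classical

variable {Sig : Type}

lemma nv_le (p : List (Sig ⊕ ℕ)) : nv p ≤ p.length := by
  rw [← card_FX]; simpa using card_le_card (FX_subset p)

/-- included languages: the bigger language has the shorter pattern. -/
lemma length_le [Nonempty Sig] {p q : List (Sig ⊕ ℕ)} (h : Lang p ⊆ Lang q) :
    q.length ≤ p.length := by
  obtain ⟨s, hs, hw⟩ := h (a := p.flatMap (img (fun _ => [Classical.arbitrary Sig])))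
    ⟨_, by simp, rfl⟩
  have h1 := pos_add_le q hs (Nat.zero_le q.length) le_rfl
  rw [pos_length, ← hw, letter_flatMap, pos_zero] at h1
  simpa using h1

/-- for equal lengths letter instances correspond to letter instances. -/
lemma letter_eq {p q : List (Sig ⊕ ℕ)} (hlen : p.length = q.length) (h : Lang p ⊆ Lang q)
    (g : ℕ → Sig) : ∃ g' : ℕ → Sig, p.map (Sum.elim id g) = q.map (Sum.elim id g') := by
  obtain ⟨s, hs, hw⟩ := h (a := p.flatMap (img (fun i => [g i]))) ⟨_, by simp, rfl⟩
  rw [letter_flatMap] at hw
  have hlw : (q.flatMap (img s)).length = q.length := by rw [← hw]; simp [hlen]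
  refine ⟨fun i => (s i).head (hs i), ?_⟩
  apply List.ext_getElem
  · simp [hlen]
  · intro k h1 h2
    simp only [List.length_map] at h1 h2
    have hpk : pos q s k = k := by
      have e1 := pos_add_le q hs (Nat.zero_le k) h2.le
      have e2 := pos_add_le q hs h2.le le_rfl
      rw [pos_zero] at e1
      rw [pos_length, hlw] at e2
      omega
    have e3 := pos_get q hs h2
    rw [hpk, ← hw, List.getElem?_eq_getElem (by simpa using h1)] at e3
    have e4 : (img s q[k]).head? = some (Sum.elim id (fun i => (s i).head (hs i)) q[k]) := by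
      cases q[k] with
      | inl a => simp [img]
      | inr i => simp [img, List.head?_eq_some_head (hs i)]
    rw [e4] at e3
    rw [Option.some.inj e3]
    simp

lemma elim_inj (h2 : ∃ a b : Sig, a ≠ b) {x y : Sig ⊕ ℕ}
    (h : ∀ g : ℕ → Sig, Sum.elim id g x = Sum.elim id g y) : x = y := by
  obtain ⟨a, b, hab⟩ := h2
  cases x with
  | inl c =>
    cases y with
    | inl c' => simpa using h (fun _ => a)
    | inr j =>
      exfalso
      have h1 := h (fun _ => a)
      have h2 := h (fun _ => b)
      simp only [Sum.elim_inl, Sum.elim_inr, id] at h1 h2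
      exact hab (h1.symm.trans h2)
  | inr i =>
    cases y with
    | inl c =>
      exfalso
      have h1 := h (fun _ => a)
      have h2 := h (fun _ => b)
      simp only [Sum.elim_inl, Sum.elim_inr, id] at h1 h2
      exact hab (h1.trans h2.symm)
    | inr j =>
      by_cases hij : i = j
      · rw [hij]
      · exfalso
        have h1 := h (fun t => if t = i then a else b)
        simp only [Sum.elim_inr, if_true] at h1
        rw [if_neg (fun h => hij h.symm)] at h1
        exact hab h1

/-- `q k` determines `p k`. -/
lemma sym_det (h2 : ∃ a b : Sig, a ≠ b) {p q : List (Sig ⊕ ℕ)} (hlen : p.length = q.length)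
    (h : Lang p ⊆ Lang q) {j k : ℕ} (hj : j < p.length) (hk : k < p.length)
    (hjk : q[j] = q[k]) : p[j] = p[k] := by
  apply elim_inj h2
  intro g
  obtain ⟨g', hg'⟩ := letter_eq hlen h g
  have e1 : (p.map (Sum.elim id g))[j]? = (q.map (Sum.elim id g'))[j]? := by rw [hg']
  have e2 : (p.map (Sum.elim id g))[k]? = (q.map (Sum.elim id g'))[k]? := by rw [hg']
  rw [List.getElem?_map, List.getElem?_map, List.getElem?_eq_getElem hj,
    List.getElem?_eq_getElem (hlen ▸ hj)] at e1
  rw [List.getElem?_map, List.getElem?_map, List.getElem?_eq_getElem hk,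
    List.getElem?_eq_getElem (hlen ▸ hk)] at e2
  simp only [Option.map_some, Option.some.injEq] at e1 e2
  rw [e1, e2, hjk]

lemma sym_const (h2 : ∃ a b : Sig, a ≠ b) {p q : List (Sig ⊕ ℕ)} (hlen : p.length = q.length)
    (h : Lang p ⊆ Lang q) {k : ℕ} (hk : k < p.length) {a : Sig}
    (hq : q[k] = Sum.inl a) : p[k] = Sum.inl a := by
  apply elim_inj h2
  intro g
  obtain ⟨g', hg'⟩ := letter_eq hlen h g
  have e2 : (p.map (Sum.elim id g))[k]? = (q.map (Sum.elim id g'))[k]? := by rw [hg']
  rw [List.getElem?_map, List.getElem?_map, List.getElem?_eq_getElem hk,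
    List.getElem?_eq_getElem (hlen ▸ hk)] at e2
  simp only [Option.map_some, Option.some.injEq] at e2
  rw [e2, hq]
  simp

/-- the data of the map of variables. -/
lemma var_map (h2 : ∃ a b : Sig, a ≠ b) {p q : List (Sig ⊕ ℕ)} (hlen : p.length = q.length)
    (h : Lang p ⊆ Lang q) : ∃ ι : ℕ → ℕ,
      (∀ j, Sum.inr j ∈ p → ∃ k, ∃ hk : k < p.length, p[k] = Sum.inr j ∧ q[k] = Sum.inr (ι j)) := by
  have : ∀ j, ∃ i, Sum.inr j ∈ p →
      ∃ k, ∃ hk : k < p.length, p[k] = Sum.inr j ∧ q[k] = Sum.inr i := by
    intro j
    by_cases hj : Sum.inr j ∈ p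
    · obtain ⟨k, hk, hpk⟩ := List.getElem_of_mem hj
      cases hq : q[k] with
      | inl a =>
        have := sym_const h2 hlen h hk hq
        rw [hpk] at this
        cases this
      | inr i => exact ⟨i, fun _ => ⟨k, hk, hpk, hq⟩⟩
    · exact ⟨0, fun h => absurd h hj⟩
  choose ι hι using this
  exact ⟨ι, hι⟩

lemma nv_mono (h2 : ∃ a b : Sig, a ≠ b) {p q : List (Sig ⊕ ℕ)} (hlen : p.length = q.length)
    (h : Lang p ⊆ Lang q) : nv p ≤ nv q := by
  obtain ⟨ι, hι⟩ := var_map h2 hlen h
  unfold nv
  apply card_le_card_of_injOn ι
  · intro j hj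
    rw [mem_coe, mem_vars] at hj
    obtain ⟨k, hk, _, h2⟩ := hι j hj
    rw [mem_coe, mem_vars, ← h2]
    exact List.getElem_mem _
  · intro j hj j' hj' hjj
    rw [mem_coe, mem_vars] at hj hj'
    obtain ⟨k, hk, a1, a2⟩ := hι j hj
    obtain ⟨k', hk', b1, b2⟩ := hι j' hj'
    have := sym_det h2 hlen h hk hk' (by rw [a2, b2, hjj])
    rw [a1, b1] at this
    exact Sum.inr.inj this

lemma nv_strict (h2 : ∃ a b : Sig, a ≠ b) {p q : List (Sig ⊕ ℕ)} (hlen : p.length = q.length)
    (h : Lang p ⊂ Lang q) : nv p < nv q := by
  have hsub := h.subset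
  rcases (nv_mono h2 hlen hsub).lt_or_eq with hlt | heq
  · exact hlt
  exfalso
  obtain ⟨ι, hι⟩ := var_map h2 hlen hsub
  have hinj : Set.InjOn ι ((p.filterMap Sum.getRight?).toFinset : Set ℕ) := by
    intro j hj j' hj' hjj
    rw [mem_coe, mem_vars] at hj hj'
    obtain ⟨k, hk, a1, a2⟩ := hι j hj
    obtain ⟨k', hk', b1, b2⟩ := hι j' hj'
    have := sym_det h2 hlen hsub hk hk' (by rw [a2, b2, hjj])
    rw [a1, b1] at this
    exact Sum.inr.inj this
  have hmaps : Set.MapsTo ι ((p.filterMap Sum.getRight?).toFinset : Set ℕ)
      ((q.filterMap Sum.getRight?).toFinset : Set ℕ) := by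
    intro j hj
    rw [mem_coe, mem_vars] at hj
    obtain ⟨k, hk, _, h2⟩ := hι j hj
    rw [mem_coe, mem_vars, ← h2]
    exact List.getElem_mem _
  have hsurj : ∀ i, Sum.inr i ∈ q → ∃ j, Sum.inr j ∈ p ∧ ι j = i := by
    intro i hi
    have := surjOn_of_injOn_of_card_le ι hmaps hinj heq.ge
    obtain ⟨j, hj, hji⟩ := this (a := i) (by rw [mem_coe, mem_vars]; exact hi)
    rw [mem_coe, mem_vars] at hj
    exact ⟨j, hj, hji⟩
  apply h.not_subset
  rintro w ⟨s, hs, rfl⟩
  refine ⟨fun j => s (ι j), fun j => hs _, ?_⟩
  have : q.map (img s) = p.map (img (fun j => s (ι j))) := by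
    apply List.ext_getElem
    · simp [hlen]
    · intro k hk1 hk2
      simp only [List.length_map] at hk1 hk2
      simp only [List.getElem_map]
      cases hq : q[k] with
      | inl a =>
        rw [sym_const h2 hlen hsub hk2 hq]
        simp [img]
      | inr i =>
        obtain ⟨j, hj, hji⟩ := hsurj i (hq ▸ List.getElem_mem hk1)
        obtain ⟨k', hk', b1, b2⟩ := hι j hj
        have := sym_det h2 hlen hsub hk2 hk' (by rw [b2, hji]; exact hq)
        rw [this, b1]
        simp [img, hji]
  rw [List.flatMap_def, List.flatMap_def, this]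

/-- depth function. -/
noncomputable def phi (p : List (Sig ⊕ ℕ)) : ℕ := 2 * p.length - nv p

lemma phi_eq (h2 : ∃ a b : Sig, a ≠ b) {p q : List (Sig ⊕ ℕ)} (h : Lang p = Lang q) :
    phi p = phi q := by
  have : Nonempty Sig := ⟨h2.choose⟩
  have h3 := length_le h.subset
  have h4 := length_le h.symm.subset
  have hlen : p.length = q.length := le_antisymm h4 h3
  have h5 := nv_mono h2 hlen h.subset
  have h6 := nv_mono h2 hlen.symm h.symm.subset
  unfold phi
  omega

lemma phi_strict [Fintype Sig] (h16 : 16 ≤ Fintype.card Sig) {p q : List (Sig ⊕ ℕ)}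
    (h : Lang p ⊂ Lang q) : phi q + 1 ≤ phi p := by
  have h2 : ∃ a b : Sig, a ≠ b := by
    have : 1 < Fintype.card Sig := by omega
    exact Fintype.exists_pair_of_one_lt_card this
  have : Nonempty Sig := ⟨h2.choose⟩
  have h3 := length_le h.subset
  have hp := nv_le p
  have hq := nv_le q
  rcases h3.eq_or_lt with heq | hlt
  · have := nv_strict h2 heq.symm h
    unfold phi
    omega
  · have := letter_lemma h16 p q (p.length - q.length) (by omega) (by omega) (by
      intro g
      rw [← letter_flatMap]
      exact h.subset ⟨_, by simp, rfl⟩)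
    unfold phi
    omega

/-- one step up. -/
lemma step_up (h2 : ∃ a b : Sig, a ≠ b) {p : List (Sig ⊕ ℕ)} (hp : p ≠ []) (hphi : 1 < phi p) :
    ∃ p' : List (Sig ⊕ ℕ), p' ≠ [] ∧ phi p' + 1 = phi p ∧ Lang p ⊂ Lang p' := by
  have : Nonempty Sig := ⟨h2.choose⟩
  have hnv := nv_le p
  rcases hnv.lt_or_eq with hlt | heq
  · -- a position which is not a first occurrence
    have hex : ∃ k ∈ range p.length, k ∉ FX p := by
      by_contra hcon
      push Not at hcon
      have h3 : range p.length ⊆ FX p := hcon
      have := card_le_card h3
      rw [card_FX, card_range] at this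
      omega
    obtain ⟨k, hk, hkX⟩ := hex
    rw [mem_range] at hk
    obtain ⟨j, hj⟩ := Infinite.exists_notMem_finset (p.filterMap Sum.getRight?).toFinset
    rw [mem_vars] at hj
    have hvars : ((p.set k (Sum.inr j)).filterMap Sum.getRight?).toFinset =
        insert j (p.filterMap Sum.getRight?).toFinset := by
      ext i
      rw [mem_insert, mem_vars, mem_vars]
      constructor
      · intro hi
        rcases List.mem_or_eq_of_mem_set hi with h | h
        · exact Or.inr h
        · exact Or.inl (Sum.inr.inj h)
      · rintro (rfl | hi)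
        · rw [List.mem_iff_getElem]
          exact ⟨k, by simpa using hk, by simp⟩
        · have hf := fidx_lt hi
          have hf2 := getElem_fidx hf
          have hne : fidx p (Sum.inr i) ≠ k := by
            intro he
            apply hkX
            simp only [FX, mem_filter, mem_range]
            refine ⟨hk, i, ?_, he⟩
            rw [List.getElem?_eq_getElem hk]
            congr 1
            rw [← hf2]
            congr 1
            exact he.symm
          rw [List.mem_iff_getElem]
          refine ⟨fidx p (Sum.inr i), by simpa using hf, ?_⟩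
          rw [List.getElem_set_ne (Ne.symm hne)]
          exact hf2
    have hnv' : nv (p.set k (Sum.inr j)) = nv p + 1 := by
      unfold nv
      rw [hvars, card_insert_of_notMem]
      rw [mem_vars]; exact hj
    have hsub : Lang p ⊆ Lang (p.set k (Sum.inr j)) := by
      rintro w ⟨s, hs, rfl⟩
      refine ⟨Function.update s j (img s p[k]), ?_, ?_⟩
      · intro i
        by_cases hij : i = j
        · subst hij; simp [img_ne_nil hs]
        · rw [Function.update_of_ne hij]; exact hs i
      · have : p.map (img s) = (p.set k (Sum.inr j)).map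
            (img (Function.update s j (img s p[k]))) := by
          apply List.ext_getElem
          · simp
          · intro l hl1 hl2
            simp only [List.length_map] at hl1
            simp only [List.getElem_map]
            by_cases hlk : k = l
            · subst hlk
              simp [img]
            · rw [List.getElem_set_ne hlk]
              cases hpl : p[l] with
              | inl a => simp [img]
              | inr i =>
                have hij : i ≠ j := by
                  rintro rfl
                  exact hj (hpl ▸ List.getElem_mem hl1)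
                simp [img, Function.update_of_ne hij]
        rw [List.flatMap_def, List.flatMap_def, this]
    refine ⟨p.set k (Sum.inr j), ?_, ?_, ?_⟩
    · intro he
      have := congrArg List.length he
      simp at this
      exact hp this
    · unfold phi
      rw [hnv', List.length_set]
      omega
    · refine ⟨hsub, ?_⟩
      intro hsub'
      have := nv_mono h2 (by simp) hsub'
      omega
  · -- all symbols are distinct variables
    have hlen : 2 ≤ p.length := by
      unfold phi at hphi
      omega
    match p, hlen with
    | x :: y :: t, _ =>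
      have hall : FX (x :: y :: t) = range (x :: y :: t).length := by
        apply eq_of_subset_of_card_le (FX_subset _)
        rw [card_FX, card_range, heq]
      have h1mem : 1 ∈ FX (x :: y :: t) := by rw [hall]; simp
      have hvar : ∀ k, k < (x :: y :: t).length →
          ∃ i, (x :: y :: t)[k]? = some (Sum.inr i) ∧ fidx (x :: y :: t) (Sum.inr i) = k := by
        intro k hk
        have : k ∈ FX (x :: y :: t) := by rw [hall]; exact mem_range.2 hk
        simp only [FX, mem_filter] at this
        exact this.2
      obtain ⟨i, hi1, hi2⟩ := hvar 1 (by simp)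
      simp only [List.getElem?_cons_succ, List.getElem?_cons_zero, Option.some.injEq] at hi1
      subst hi1
      have hit : Sum.inr i ∉ t := by
        intro hmem
        obtain ⟨k, hk, hpk⟩ := List.getElem_of_mem hmem
        obtain ⟨i', hi1', hi2'⟩ := hvar (k + 2) (by simpa using hk)
        simp only [List.getElem?_cons_succ, List.getElem?_eq_getElem hk, hpk,
          Option.some.injEq] at hi1'
        rw [← hi1', hi2] at hi2'
        omega
      obtain ⟨i0, hi01, hi02⟩ := hvar 0 (by simp)
      simp only [List.getElem?_cons_zero, Option.some.injEq] at hi01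
      subst hi01
      have hi0t : Sum.inr i0 ∉ (Sum.inr i :: t : List (Sig ⊕ ℕ)) := by
        intro hmem
        obtain ⟨k, hk, hpk⟩ := List.getElem_of_mem hmem
        obtain ⟨i', hi1', hi2'⟩ := hvar (k + 1) (by simpa using hk)
        simp only [List.getElem?_cons_succ, List.getElem?_eq_getElem hk, hpk,
          Option.some.injEq] at hi1'
        rw [← hi1', hi02] at hi2'
        omega
      refine ⟨Sum.inr i :: t, by simp, ?_, ?_, ?_⟩
      · have hnv' : nv (Sum.inr i0 :: Sum.inr i :: t : List (Sig ⊕ ℕ)) =
            nv (Sum.inr i :: t : List (Sig ⊕ ℕ)) + 1 := by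
          have : ((Sum.inr i0 :: Sum.inr i :: t : List (Sig ⊕ ℕ)).filterMap
              Sum.getRight?).toFinset = insert i0 ((Sum.inr i :: t : List (Sig ⊕ ℕ)).filterMap
              Sum.getRight?).toFinset := by
            ext l
            rw [mem_insert, mem_vars, mem_vars, List.mem_cons]
            simp
          unfold nv
          rw [this, card_insert_of_notMem]
          rw [mem_vars]; exact hi0t
        unfold phi
        rw [heq] at *
        simp only [List.length_cons] at *
        omega
      · rintro w ⟨s, hs, rfl⟩
        refine ⟨Function.update s i (s i0 ++ s i), ?_, ?_⟩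
        · intro l
          by_cases hl : l = i
          · subst hl; simp [hs]
          · rw [Function.update_of_ne hl]; exact hs l
        · have ht : t.map (img s) = t.map (img (Function.update s i (s i0 ++ s i))) := by
            apply List.map_congr_left
            intro z hz
            cases z with
            | inl a => simp [img]
            | inr l =>
              have : l ≠ i := by rintro rfl; exact hit hz
              simp [img, Function.update_of_ne this]
          rw [List.flatMap_cons, List.flatMap_cons, List.flatMap_cons, List.flatMap_def,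
            List.flatMap_def, ← ht]
          have e1 : img (Function.update s i (s i0 ++ s i)) (Sum.inr i) = s i0 ++ s i := by
            unfold img
            rw [Sum.elim_inr, Function.update_self]
          have e2 : img s (Sum.inr i0) = s i0 := rfl
          have e3 : img s (Sum.inr i) = s i := rfl
          rw [e1, e2, e3, List.append_assoc]
      · intro hsub'
        have := length_le hsub'
        simp at this

lemma exists_chain (h2 : ∃ a b : Sig, a ≠ b) (N : ℕ) : ∀ p : List (Sig ⊕ ℕ), p ≠ [] →
    phi p = N + 1 → ∃ c : ℕ → List (Sig ⊕ ℕ), Lang (c 0) = Lang [Sum.inr 0] ∧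
      Lang (c N) = Lang p ∧ ∀ i < N, Lang (c (i + 1)) ⊂ Lang (c i) := by
  induction N with
  | zero =>
    intro p hp hphi
    have hnv := nv_le p
    have hl : 0 < p.length := List.length_pos_iff.2 hp
    unfold phi at hphi
    have hlen : p.length = 1 := by omega
    have hnv1 : nv p = 1 := by omega
    refine ⟨fun _ => [Sum.inr 0], rfl, ?_, by simp⟩
    obtain ⟨x, rfl⟩ := List.length_eq_one_iff.1 hlen
    cases x with
    | inl a =>
      exfalso
      have : nv ([Sum.inl a] : List (Sig ⊕ ℕ)) = 0 := by
        unfold nv
        rw [List.filterMap_cons_none (by simp)]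
        simp
      omega
    | inr i =>
      ext w
      constructor
      · rintro ⟨s, hs, rfl⟩
        exact ⟨fun _ => s 0, fun _ => hs 0, by simp [img]⟩
      · rintro ⟨s, hs, rfl⟩
        exact ⟨fun _ => s i, fun _ => hs i, by simp [img]⟩
  | succ N ih =>
    intro p hp hphi
    obtain ⟨p', hp', hphi', hss⟩ := step_up h2 hp (by omega)
    obtain ⟨c, hc0, hcN, hcc⟩ := ih p' hp' (by omega)
    refine ⟨fun i => if i ≤ N then c i else p, ?_, ?_, ?_⟩
    · simpa using hc0
    · simp
    · intro i hi
      rcases Nat.lt_or_ge i N with h | h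
      · simp only [if_pos h.le, if_pos (Nat.succ_le_of_lt h)]
        exact hcc i h
      · have : i = N := by omega
        subst this
        simp only [le_refl, if_true]
        rw [if_neg (by omega), hcN]
        exact hss

theorem depth [Fintype Sig] (h16 : 16 ≤ Fintype.card Sig) (p : List (Sig ⊕ ℕ)) (hp : p ≠ []) :
    (∃ c : ℕ → List (Sig ⊕ ℕ), Lang (c 0) = Lang [Sum.inr 0] ∧
      Lang (c (2 * p.length - nv p - 1)) = Lang p ∧
      ∀ i < 2 * p.length - nv p - 1, Lang (c (i + 1)) ⊂ Lang (c i)) ∧
    ∀ m : ℕ, ∀ c : ℕ → List (Sig ⊕ ℕ), Lang (c 0) = Lang [Sum.inr 0] → Lang (c m) = Lang p →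
      (∀ i < m, Lang (c (i + 1)) ⊂ Lang (c i)) → m ≤ 2 * p.length - nv p - 1 := by
  have h2 : ∃ a b : Sig, a ≠ b := by
    have : 1 < Fintype.card Sig := by omega
    exact Fintype.exists_pair_of_one_lt_card this
  have hnv := nv_le p
  have hl : 0 < p.length := List.length_pos_iff.2 hp
  refine ⟨exists_chain h2 _ p hp (by unfold phi; omega), ?_⟩
  intro m c h0 hm hc
  have key : ∀ i ≤ m, phi (c 0) + i ≤ phi (c i) := by
    intro i
    induction i with
    | zero => intro _; simp
    | succ i ih =>
      intro hi
      have h3 := ih (by omega)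
      have h4 := phi_strict h16 (hc i (by omega))
      omega
  have h5 := key m le_rfl
  have h6 := phi_eq h2 h0
  have h7 := phi_eq h2 hm
  have h8 : phi ([Sum.inr 0] : List (Sig ⊕ ℕ)) = 1 := by
    unfold phi nv
    simp
  unfold phi at h5 h6 h7 h8
  omega

end Helper84ID
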